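import Pool.Agent.MP_74e98a_nt.H93.Defs
import Pool.Agent.MP_ca0a54_nt.L0.MeanA

/-! The term without stationary point. -/

namespace Pool.Agent.MP_74e98a_nt.H44

open Complex MeasureTheory Set Pool.Agent.MP_74e98a_nt.H93 Pool.Agent.MP_74e98a_nt.H75

theorem hasDerivAt_ell {t : ℝ} (ht : 0 < t) : HasDerivAt ell (1 / (2 * t)) t := by
  have h := (((hasDerivAt_id t).div_const (2 * Real.pi)).log
    (by have := Real.pi_pos; simp only [id]; positivity)).div_const 2
  refine h.congr_deriv ?_
  have := Real.pi_pos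
  simp only [id]
  field_simp

theorem hasDerivAt_th0 {t : ℝ} (ht : 0 < t) : HasDerivAt th0 (ell t) t := by
  have h := ((hasDerivAt_id t).mul (hasDerivAt_ell ht)).sub ((hasDerivAt_id t).div_const 2)
  refine h.congr_deriv ?_
  simp only [id]
  field_simp
  ring

/-- the oscillating factor -/
noncomputable def osc (μ t : ℝ) : ℂ := cexp (I * ((3 * th0 t - μ * t : ℝ) : ℂ))

theorem norm_osc (μ t : ℝ) : ‖osc μ t‖ = 1 := by
  rw [osc, mul_comm, norm_exp_ofReal_mul_I]

theorem hasDerivAt_osc (μ : ℝ) {t : ℝ} (ht : 0 < t) :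
    HasDerivAt (osc μ) (osc μ t * (I * ((3 * ell t - μ : ℝ) : ℂ))) t := by
  have h : HasDerivAt (fun t => 3 * th0 t - μ * t) (3 * ell t - μ) t := by
    exact (((hasDerivAt_th0 ht).const_mul 3).sub ((hasDerivAt_id t).const_mul μ)).congr_deriv
      (by rw [mul_one])
  exact (h.ofReal_comp.const_mul I).cexp

theorem osc_bound {a b μ α β : ℝ} (ha : 0 < a) (hab : a ≤ b) (hb : b - a ≤ a)
    (hβ : |β| * (b - a) ≤ 1) (hg : ∀ t ∈ Icc a b, |α + β * t| ≤ 1)
    (hu : ∀ t ∈ Icc a b, 4 / 5 ≤ 3 * ell t - μ) :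
    ‖∫ t in a..b, ((α + β * t : ℝ) : ℂ) * osc μ t‖ ≤ 7 := by
  set u : ℝ → ℝ := fun t => 3 * ell t - μ with hu'
  set r : ℝ → ℝ := fun t => (β * u t - (α + β * t) * (3 * (1 / (2 * t)))) / u t ^ 2 with hr
  set F : ℝ → ℂ := fun t => (((α + β * t) / u t : ℝ) : ℂ) * osc μ t * -I with hF
  have hpos : ∀ t ∈ Icc a b, 0 < t := fun t ht => ha.trans_le ht.1
  have hu0 : ∀ t ∈ Icc a b, u t ≠ 0 := fun t ht => by have := hu t ht; intro h; simp only [u] at h; linarith
  have hd : ∀ t ∈ Icc a b, HasDerivAt F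
      (((α + β * t : ℝ) : ℂ) * osc μ t - I * (r t : ℂ) * osc μ t) t := by
    intro t ht
    have h1 : HasDerivAt (fun t => (α + β * t) / u t) (r t) t := by
      have h2 : HasDerivAt (fun t => α + β * t) β t := by
        simpa using ((hasDerivAt_id t).const_mul β).const_add α
      exact h2.div (((hasDerivAt_ell (hpos t ht)).const_mul 3).sub_const μ) (hu0 t ht)
    refine ((h1.ofReal_comp.mul (hasDerivAt_osc μ (hpos t ht))).mul_const (-I)).congr_deriv ?_
    have h3 : ((u t : ℝ) : ℂ) ≠ 0 := ofReal_ne_zero.2 (hu0 t ht)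
    have h4 : (((α + β * t) / u t : ℝ) : ℂ) * (u t : ℂ) = ((α + β * t : ℝ) : ℂ) := by
      rw [ofReal_div, div_mul_cancel₀ _ h3]
    rw [show (3 * ell t - μ : ℝ) = u t from rfl, ← h4]
    linear_combination (-((((α + β * t) / u t : ℝ) : ℂ)) * (u t : ℂ) * osc μ t) * I_mul_I
  have hoc : ContinuousOn (osc μ) (Icc a b) := fun t ht =>
    (hasDerivAt_osc μ (hpos t ht)).continuousAt.continuousWithinAt
  have huc : ContinuousOn u (Icc a b) := fun t ht =>
    (((hasDerivAt_ell (hpos t ht)).const_mul 3).sub_const μ).continuousAt.continuousWithinAt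
  have hrc : ContinuousOn r (Icc a b) := by
    refine ContinuousOn.div ((continuousOn_const.mul huc).sub (ContinuousOn.mul (by fun_prop)
      (continuousOn_const.mul (continuousOn_const.div (by fun_prop) fun t ht => ?_))))
      (huc.pow 2) fun t ht => pow_ne_zero _ (hu0 t ht)
    have := hpos t ht
    positivity
  have i1 : IntervalIntegrable (fun t => ((α + β * t : ℝ) : ℂ) * osc μ t) volume a b :=
    (ContinuousOn.mul (by fun_prop) hoc).intervalIntegrable_of_Icc hab
  have i2 : IntervalIntegrable (fun t => I * (r t : ℂ) * osc μ t) volume a b :=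
    ((continuousOn_const.mul (continuous_ofReal.comp_continuousOn hrc)).mul
      hoc).intervalIntegrable_of_Icc hab
  have h := intervalIntegral.integral_eq_sub_of_hasDerivAt
    (fun t ht => hd t (by rwa [uIcc_of_le hab] at ht)) (i1.sub i2)
  rw [intervalIntegral.integral_sub i1 i2, sub_eq_iff_eq_add] at h
  have hFb : ∀ t ∈ Icc a b, ‖F t‖ ≤ 5 / 4 := fun t ht => by
    have h1 := hu t ht
    rw [hF]
    simp only [norm_mul, norm_osc, norm_neg, norm_I, mul_one, norm_real, Real.norm_eq_abs, abs_div]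
    rw [abs_of_pos (by linarith : 0 < u t), div_le_iff₀ (by linarith : 0 < u t)]
    have := hg t ht
    linarith
  have hrb : ‖∫ t in a..b, I * (r t : ℂ) * osc μ t‖ ≤ (|β| * (5 / 4) + 3 / a) * |b - a| := by
    refine intervalIntegral.norm_integral_le_of_norm_le_const fun t ht => ?_
    rw [uIoc_of_le hab] at ht
    have ht' : t ∈ Icc a b := Ioc_subset_Icc_self ht
    have h1 : 4 / 5 ≤ u t := hu t ht'
    have h2 := hg t ht'
    have h3 := hpos t ht'
    simp only [norm_mul, norm_osc, norm_I, mul_one, one_mul, norm_real, Real.norm_eq_abs, hr,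
      abs_div, abs_pow]
    rw [abs_of_pos (by linarith : 0 < u t), div_le_iff₀ (by positivity)]
    have h4 : 3 * (1 / (2 * t)) ≤ 3 / a / 2 := by
      rw [show 3 * (1 / (2 * t)) = 3 / t / 2 by field_simp]
      gcongr
      exact ht'.1
    have h5 : |(α + β * t) * (3 * (1 / (2 * t)))| ≤ 3 / a / 2 := by
      rw [abs_mul, abs_of_pos (by positivity : 0 < 3 * (1 / (2 * t)))]
      calc _ ≤ 1 * (3 / a / 2) := by gcongr
        _ = _ := one_mul _
    have h6 : |β * u t| = |β| * u t := by rw [abs_mul, abs_of_pos (by linarith : 0 < u t)]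
    have h7 : 0 < 3 / a := by positivity
    have h8 := abs_nonneg β
    have h9 : 16 / 25 ≤ u t ^ 2 := by nlinarith
    calc _ ≤ |β| * u t + 3 / a / 2 := (abs_sub _ _).trans (by rw [h6]; linarith)
      _ ≤ _ := by
        have : |β| * u t ≤ |β| * (5 / 4) * u t ^ 2 := by
          rw [mul_assoc]
          gcongr
          nlinarith
        nlinarith
  have hl : (|β| * (5 / 4) + 3 / a) * |b - a| ≤ 5 / 4 + 3 := by
    rw [abs_of_nonneg (by linarith : 0 ≤ b - a)]
    have : 3 / a * (b - a) ≤ 3 := by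
      rw [div_mul_eq_mul_div, div_le_iff₀ ha]
      linarith
    nlinarith
  rw [h]
  have h1 := hFb a ⟨le_rfl, hab⟩
  have h2 := hFb b ⟨hab, le_rfl⟩
  have h3 := norm_sub_le (F b) (F a)
  exact (norm_add_le _ _).trans (by linarith)

theorem tri_int {w H μ : ℝ} (hw : H < w) {a b : ℝ} (ha : w - H ≤ a) (hab : a ≤ b) :
    IntervalIntegrable (fun t => (tri w H t : ℂ) * osc μ t) volume a b :=
  ((continuous_ofReal.comp (continuous_tri w H)).continuousOn.mul fun t ht =>
    (hasDerivAt_osc μ (by linarith [ht.1])).continuousAt.continuousWithinAt).intervalIntegrable_of_Icc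
      hab

theorem tri_bound {w H μ : ℝ} (hw : 10 ≤ w) (hH : 0 < H) (hHw : H ≤ w / 10)
    (hμ : μ ≤ 3 * ell w - 1) : ‖∫ t in (w - H)..(w + H), (tri w H t : ℂ) * osc μ t‖ ≤ 14 := by
  have hu : ∀ t, w - H ≤ t → 4 / 5 ≤ 3 * ell t - μ := by
    intro t ht
    have ht0 : 0 < t := by linarith
    have h1 : ell t - ell w = Real.log (t / w) / 2 := by
      have := Real.pi_pos
      rw [ell, ell, ← sub_div, ← Real.log_div (by positivity) (by positivity)]
      congr 2
      field_simp
    have h2 := Real.one_sub_inv_le_log_of_pos (by positivity : 0 < t / w)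
    have h3 : (t / w)⁻¹ ≤ 10 / 9 := by
      rw [inv_div, div_le_iff₀ ht0]
      linarith
    linarith
  rw [← intervalIntegral.integral_add_adjacent_intervals (b := w)
    (tri_int (by linarith) le_rfl (by linarith))
    (tri_int (by linarith) (by linarith) (by linarith))]
  have e1 : ∀ t ∈ Icc (w - H) w, tri w H t = (1 - w / H) + 1 / H * t := fun t ht => by
    have : (w - t) / H ≤ 1 := by rw [div_le_one hH]; linarith [ht.1]
    rw [tri, abs_of_nonpos (by linarith [ht.2]), neg_sub, max_eq_right (by linarith)]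
    ring
  have e2 : ∀ t ∈ Icc w (w + H), tri w H t = (1 + w / H) + -(1 / H) * t := fun t ht => by
    have : (t - w) / H ≤ 1 := by rw [div_le_one hH]; linarith [ht.2]
    rw [tri, abs_of_nonneg (by linarith [ht.1]), max_eq_right (by linarith)]
    ring
  have hb : ∀ t, |tri w H t| ≤ 1 := fun t =>
    abs_le.2 ⟨by linarith [tri_nonneg w H t], tri_le_one w t hH.le⟩
  have b1 := osc_bound (a := w - H) (b := w) (μ := μ) (α := 1 - w / H) (β := 1 / H) (by linarith)
    (by linarith) (by linarith) (by rw [abs_of_pos (by positivity)]; field_simp; linarith)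
    (fun t ht => e1 t ht ▸ hb t) fun t ht => hu t ht.1
  have b2 := osc_bound (a := w) (b := w + H) (μ := μ) (α := 1 + w / H) (β := -(1 / H)) (by linarith)
    (by linarith) (by linarith) (by rw [abs_neg, abs_of_pos (by positivity)]; field_simp; linarith)
    (fun t ht => e2 t ht ▸ hb t) fun t ht => hu t (by linarith [ht.1])
  rw [intervalIntegral.integral_congr (g := fun t => ((1 - w / H + 1 / H * t : ℝ) : ℂ) * osc μ t)
      fun t ht => by rw [uIcc_of_le (by linarith)] at ht; simp only [e1 t ht],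
    intervalIntegral.integral_congr (a := w)
      (g := fun t => ((1 + w / H + -(1 / H) * t : ℝ) : ℂ) * osc μ t)
      fun t ht => by rw [uIcc_of_le (by linarith)] at ht; simp only [e2 t ht]]
  exact (norm_add_le _ _).trans (by linarith)

theorem sum_three {R : Type*} [CommSemiring R] (s : Finset ℕ) (f g h : ℕ → R) :
    (∑ x ∈ s, f x) * (∑ x ∈ s, g x) * ∑ x ∈ s, h x =
      ∑ x ∈ s, ∑ y ∈ s, ∑ z ∈ s, f x * g y * h z := by
  rw [Finset.sum_mul_sum, Finset.sum_mul]
  refine Finset.sum_congr rfl fun x _ => ?_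
  rw [Finset.sum_mul_sum]

theorem cube : CubeStmt := by
  refine ⟨112, fun φ hφ w H L1 L2 L3 N hw hH hHw hL => ?_⟩
  set c : ℝ → ℕ → ℝ := fun L n => φ (L - Real.log n) * (1 / Real.sqrt n) with hc
  have hexp : ∀ t : ℝ, (tri w H t : ℂ) *
      (cexp (3 * (I * th0 t)) * (P φ L1 N t * P φ L2 N t * P φ L3 N t)) =
      ∑ x ∈ Finset.Icc 1 N ×ˢ Finset.Icc 1 N ×ˢ Finset.Icc 1 N,
        ((c L1 x.1 * c L2 x.2.1 * c L3 x.2.2 : ℝ) : ℂ) *
          ((tri w H t : ℂ) * osc (Real.log x.1 + Real.log x.2.1 + Real.log x.2.2) t) := by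
    intro t
    simp only [P]
    rw [sum_three]
    simp only [Finset.sum_product, Finset.mul_sum]
    refine Finset.sum_congr rfl fun x _ => Finset.sum_congr rfl fun y _ =>
      Finset.sum_congr rfl fun z _ => ?_
    have : osc (Real.log x + Real.log y + Real.log z) t = cexp (3 * (I * th0 t)) *
        (cexp (-I * (Real.log x : ℂ) * t) * (cexp (-I * (Real.log y : ℂ) * t) *
          cexp (-I * (Real.log z : ℂ) * t))) := by
      simp only [osc, ← Complex.exp_add, ofReal_sub, ofReal_mul, ofReal_add, ofReal_ofNat]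
      congr 1
      ring
    simp only [this, dir, hc, ofReal_mul]
    ring
  have hc0 : ∀ L n, 0 ≤ c L n := fun L n => mul_nonneg (hφ.nonneg _) (by positivity)
  have hc1 : ∀ L, ∑ n ∈ Finset.Icc 1 N, c L n ≤ 2 * Real.sqrt N := fun L =>
    le_trans (Finset.sum_le_sum fun n _ => mul_le_of_le_one_left (by positivity) (hφ.le_one _))
      (Pool.Agent.MP_ca0a54_nt.L0.MeanA.sum_inv_sqrt_le N)
  have hc2 : ∀ L n, c L n ≠ 0 → Real.log n ≤ L + 1 := fun L n h => by
    by_contra h1
    exact h (by simp only [hc]; rw [hφ.zero _ (by linarith), zero_mul])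
  simp only [hexp]
  rw [intervalIntegral.integral_finsetSum fun x _ =>
    (tri_int (by linarith) le_rfl (by linarith)).const_mul _]
  calc _ ≤ ∑ x ∈ Finset.Icc 1 N ×ˢ Finset.Icc 1 N ×ˢ Finset.Icc 1 N,
        14 * (c L1 x.1 * (c L2 x.2.1 * c L3 x.2.2)) := by
        refine (norm_sum_le _ _).trans (Finset.sum_le_sum fun x _ => ?_)
        rw [intervalIntegral.integral_const_mul, norm_mul, norm_real, Real.norm_of_nonneg
          (mul_nonneg (mul_nonneg (hc0 _ _) (hc0 _ _)) (hc0 _ _)), mul_comm, ← mul_assoc]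
        by_cases h : c L1 x.1 * c L2 x.2.1 * c L3 x.2.2 = 0
        · rw [mul_assoc, mul_assoc, ← mul_assoc (c L1 x.1), h]
          simp
        · have h1 := hc2 _ _ (left_ne_zero_of_mul (left_ne_zero_of_mul h))
          have h2 := hc2 _ _ (right_ne_zero_of_mul (left_ne_zero_of_mul h))
          have h3 := hc2 _ _ (right_ne_zero_of_mul h)
          have h4 := tri_bound (μ := Real.log x.1 + Real.log x.2.1 + Real.log x.2.2) hw hH hHw
            (by linarith)
          have h5 := mul_nonneg (mul_nonneg (hc0 L1 x.1) (hc0 L2 x.2.1)) (hc0 L3 x.2.2)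
          nlinarith
    _ = 14 * ((∑ n ∈ Finset.Icc 1 N, c L1 n) * ((∑ n ∈ Finset.Icc 1 N, c L2 n) *
        ∑ n ∈ Finset.Icc 1 N, c L3 n)) := by
        rw [← mul_assoc (∑ n ∈ Finset.Icc 1 N, c L1 n), sum_three]
        simp only [Finset.sum_product, Finset.mul_sum, mul_assoc]
    _ ≤ 14 * ((2 * Real.sqrt N) * ((2 * Real.sqrt N) * (2 * Real.sqrt N))) := by
        have := fun L => Finset.sum_nonneg (s := Finset.Icc 1 N) fun n _ => hc0 L n
        gcongr
        exacts [mul_nonneg (this _) (this _), hc1 _, this _, hc1 _, hc1 _]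
    _ = _ := by
        rw [Real.sqrt_eq_rpow, show (3 / 2 : ℝ) = 1 / 2 * (3 : ℕ) by norm_num,
          Real.rpow_mul_natCast (Nat.cast_nonneg N)]
        ring

end Pool.Agent.MP_74e98a_nt.H44
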